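import Pool.Agent.H15.SC.TargetsY

/-!
Block B5 (MP_f2954d_ag), module MX: the intersection numbers of very ample divisors are indices
(helper29).
-/

namespace Pool.Agent.H29.SCX

open SC SCB

lemma toR_add {K : Type} [Field K] [Algebra ℂ K] {N : ℕ} {w : Fin (N + 1) → K} (A B : DivZ w) :
    toR (A + B) = toR A + toR B := by
  ext v
  simp [toR]

lemma ia_dec (hIA : T_IA) (k K J : Type) [Field k] [CharZero k] [Field K] [Algebra k K]
    [Algebra.EssFiniteType k K] [Fintype J] [hd : DecidableEq J] (S : J → Sys K) (j : J)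
    (s t : Sys K)
    (h1 : ∀ j, (S j).Nz) (h2 : s.Nz) (h3 : t.Nz)
    (h4 : Algebra.trdeg k K = (Fintype.card J : ℕ)) :
    Idx (Function.update S j (s.mul t)) k =
      Idx (Function.update S j s) k + Idx (Function.update S j t) k := by
  have e : hd = fun a b => Classical.propDecidable (a = b) := Subsingleton.elim _ _
  rw [e]
  exact hIA k K J S j s t h1 h2 h3 h4

/-- two nice systems of the same divisor have the same minimal orders -/
lemma mo_nice (hXQ : T_XQ) (hXL2 : T_XL2) {K : Type} [Field K] [Algebra ℂ K] {N n : ℕ}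
    {w : Fin (N + 1) → K} {i₀ : Fin (N + 1)} {H₀ : DivZ w} (hw : IsSmoothProj w n)
    (hH : IsHyp i₀ H₀) {D : DivZ w} {T T' : Sys K} (hT : Nice i₀ H₀ D T)
    (hT' : Nice i₀ H₀ D T') (v : DV ℂ K) : v.mo T = v.mo T' := by
  obtain ⟨q1, -, -, q4, -, q6⟩ := hXQ K N n w hw i₀ H₀ hH
  have hV : VAmp H₀ (D + D) := q1 D D ((q4 D).2 ⟨T, hT⟩) ((q4 D).2 ⟨T, hT⟩)
  obtain ⟨T2, hT2⟩ := (q4 _).1 hV
  have a := (hXL2 K N n w hw D D T T' T2 (q6 _ _ hT).1 (q6 _ _ hT').1 (q6 _ _ hT2).1).1 v
  have b := (hXL2 K N n w hw D D T' T' T2 (q6 _ _ hT').1 (q6 _ _ hT').1 (q6 _ _ hT2).1).1 v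
  omega

theorem mx (hYPOL : T_YPOL) (hMX0 : T_MX0) (hXQ : T_XQ) (hIR : T_IR) (hXL2 : T_XL2) (hIA : T_IA)
    (hG2r : T_G2r) (hGL : SCB.T_GL) (hXI : T_XI) : T_MX := by
  classical
  intro K _ _ N n w i₀ H₀ μ hw hn hH hμ J _ D T hcard hT
  have : Algebra.EssFiniteType ℂ K := hXI K N n w hw
  obtain ⟨q1, -, -, q4, -, q6⟩ := hXQ K N n w hw i₀ H₀ hH
  have hdim : Algebra.trdeg ℂ K = (Fintype.card (Fin n) : ℕ) := by
    rw [Fintype.card_fin]; exact hw.dim
  -- the chosen systems
  let TT : DivZ w → Sys K := fun D => if h : VAmp H₀ D then ((q4 D).1 h).choose else Sys.one K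
  have hTT : ∀ D, VAmp H₀ D → Nice i₀ H₀ D (TT D) := by
    intro D h
    have : TT D = ((q4 D).1 h).choose := dif_pos h
    rw [this]
    exact ((q4 D).1 h).choose_spec
  have hNz : ∀ D, VAmp H₀ D → (TT D).Nz := fun D h => (q6 _ _ (hTT D h)).2
  have hGS : ∀ D, VAmp H₀ D → GenSys D (TT D) := fun D h => (q6 _ _ (hTT D h)).1
  let f : (Fin n → DivZ w) → ℝ := fun x =>
    μ (fun i => toR (x i)) - (Idx (fun i => TT (x i)) ℂ : ℝ)
  have key : ∀ x : Fin n → DivZ w, (∀ i, VAmp H₀ (x i)) →
      μ (fun i => toR (x i)) = (Idx (fun i => TT (x i)) ℂ : ℝ) := by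
    intro x hx
    have h0 := hYPOL (DivZ w) {D | VAmp H₀ D} n f hn (fun a ha b hb => q1 a b ha hb) ?_ ?_ ?_ x hx
    · exact sub_eq_zero.1 h0
    · intro x hx i a ha b hb
      have e1 : ∀ c : DivZ w, (fun j => toR (Function.update x i c j)) =
          Function.update (fun j => toR (x j)) i (toR c) := by
        intro c; funext j
        by_cases h : j = i
        · subst h; simp
        · simp [h]
      have e2 : ∀ c : DivZ w, (fun j => TT (Function.update x i c j)) =
          Function.update (fun j => TT (x j)) i (TT c) := by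
        intro c; funext j
        by_cases h : j = i
        · subst h; simp
        · simp [h]
      have hab : VAmp H₀ (a + b) := q1 a b ha hb
      have e3 : Idx (Function.update (fun j => TT (x j)) i (TT (a + b))) ℂ =
          Idx (Function.update (fun j => TT (x j)) i ((TT a).mul (TT b))) ℂ := by
        refine hIR ℂ K (Fin n) _ _ ?_ ?_ hdim ?_
        · intro j
          by_cases h : j = i
          · subst h; simpa using hNz _ hab
          · simpa [h] using hNz _ (hx j)
        · intro j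
          by_cases h : j = i
          · subst h; simpa using Sys.mul_nz (hNz _ ha) (hNz _ hb)
          · simpa [h] using hNz _ (hx j)
        · intro j v
          by_cases h : j = i
          · subst h
            simp only [Function.update_self]
            rw [DV.mo_mul v (hNz _ ha) (hNz _ hb)]
            exact (hXL2 K N n w hw a b _ _ _ (hGS a ha) (hGS b hb) (hGS _ hab)).1 v
          · simp [h]
      have e4 := ia_dec hIA ℂ K (Fin n) (fun j => TT (x j)) i (TT a) (TT b)
        (fun j => hNz _ (hx j)) (hNz _ ha) (hNz _ hb) hdim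
      simp only [f]
      rw [e1, e1, e1, e2, e2, e2, e3, e4, toR_add, μ.map_update_add]
      push_cast
      ring
    · intro σ x
      simp only [f]
      rw [hμ.1 σ (fun i => toR (x i))]
      by_cases hx : ∀ i, VAmp H₀ (x i)
      · rw [hG2r ℂ K (Fin n) (Fin n) (fun i => TT (x i)) σ (fun i => hNz _ (hx i))]
      · have hN : ∀ j, (TT (x j)).Nz := by
          intro j
          by_cases h : VAmp H₀ (x j)
          · exact hNz _ h
          · have : TT (x j) = Sys.one K := dif_neg h
            rw [this]; exact Sys.one_nz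
        rw [hG2r ℂ K (Fin n) (Fin n) (fun i => TT (x i)) σ hN]
    · intro a ha
      exact sub_eq_zero.2 (hMX0 K N n w i₀ H₀ μ hw hn hH hμ a (TT a) (hTT a ha))
  have hDV : ∀ j, VAmp H₀ (D j) := fun j => (q4 _).2 ⟨T j, hT j⟩
  have e : Fin n ≃ J := (Fintype.equivFinOfCardEq hcard).symm
  rw [(hGL (DivR w) n μ hμ.1).1 J e (fun j => toR (D j)), key (fun i => D (e i)) fun i => hDV _]
  have e5 : Idx (fun i => TT (D (e i))) ℂ = Idx (fun i => T (e i)) ℂ :=
    hIR ℂ K (Fin n) _ _ (fun i => hNz _ (hDV _)) (fun i => (q6 _ _ (hT _)).2) hdim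
      fun i v => mo_nice hXQ hXL2 hw hH (hTT _ (hDV _)) (hT _) v
  rw [e5, hG2r ℂ K J (Fin n) T e (fun j => (q6 _ _ (hT j)).2)]

end Pool.Agent.H29.SCX
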