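import Pool.Agent.H15.SC.Ms

/-!
Block B5 (MP_f2954d_ag), module SE: the class of a relevant valuation of the generic threefold
(helper29).
-/

namespace Pool.Agent.H29.SCX

open SC SCB

section

variable {K L : Type} [Field K] [Field L] [Algebra K L]

lemma up2 {k : Type} [Field k] [Algebra k L] (u : DV k L) (T T' : Sys K) :
    (fun j : Fin 2 => u.res ((![T, T'] j).up L)) = ![u.res (T.up L), u.res (T'.up L)] := by
  funext j
  fin_cases j <;> rfl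

lemma up2' {k : Type} [Field k] [Algebra k L] (u : DV k L) (T : Sys K) :
    (fun _ : Fin 2 => u.res (T.up L)) = ![u.res (T.up L), u.res (T.up L)] := by
  funext j
  fin_cases j <;> rfl

variable [Algebra ℂ K] {N n : ℕ} {w : Fin (N + 1) → K} {i₀ : Fin (N + 1)} {H₀ : DivZ w}

lemma nice_elim {J κ : Type} {D : J → DivZ w} {S : J → Sys K} (hS : ∀ j, Nice i₀ H₀ (D j) (S j))
    {E : κ → DivZ w} {T : κ → Sys K} (hT : ∀ j, Nice i₀ H₀ (E j) (T j)) :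
    ∀ j, Nice i₀ H₀ (Sum.elim D E j) (Sum.elim S T j) := by
  rintro (j | j)
  · exact hS j
  · exact hT j

lemma nice_fin2 {A A' : DivZ w} {T T' : Sys K} (h : Nice i₀ H₀ A T) (h' : Nice i₀ H₀ A' T') :
    ∀ j : Fin 2, Nice i₀ H₀ (![A, A'] j) (![T, T'] j) := by
  intro j
  fin_cases j
  · exact h
  · exact h'

lemma nice_fin3 {A A' A'' : DivZ w} {T T' T'' : Sys K} (h : Nice i₀ H₀ A T)
    (h' : Nice i₀ H₀ A' T') (h'' : Nice i₀ H₀ A'' T'') :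
    ∀ j : Fin 3, Nice i₀ H₀ (![A, A', A''] j) (![T, T', T''] j) := by
  intro j
  fin_cases j
  · exact h
  · exact h'
  · exact h''

end

section Multi

variable {M : Type} [AddCommGroup M] [Module ℝ M] {n : ℕ}
  {μ : MultilinearMap ℝ (fun _ : Fin n => M) ℝ}

/-- `ofMulti` as a linear function of the first entry -/
lemma ofMulti_finsupp (hGL : SCB.T_GL) {ι : Type}
    (μ : MultilinearMap ℝ (fun _ : Fin n => (ι →₀ ℝ)) ℝ)
    (hμ : ∀ (σ : Equiv.Perm (Fin n)) (D : Fin n → (ι →₀ ℝ)), μ (fun i => D (σ i)) = μ D)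
    (s : Multiset (ι →₀ ℝ)) (hs : s.card + 1 = n) (δ : ι →₀ ℝ) :
    ofMulti μ (δ ::ₘ s) = ∑ v ∈ δ.support, δ v * ofMulti μ (Finsupp.single v 1 ::ₘ s) := by
  classical
  obtain ⟨-, h2, h3⟩ := hGL (ι →₀ ℝ) n μ hμ
  have key : ∀ (t : Finset ι) (c : ι → ℝ), ofMulti μ ((∑ v ∈ t, c v • Finsupp.single v 1) ::ₘ s) =
      ∑ v ∈ t, c v * ofMulti μ (Finsupp.single v 1 ::ₘ s) := by
    intro t c
    induction t using Finset.induction_on with
    | empty =>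
      have := h3 0 0 s hs
      simpa using this
    | insert a t ha ih =>
      rw [Finset.sum_insert ha, Finset.sum_insert ha, h2 _ _ _ hs, h3 _ _ _ hs, ih]
  rw [← key]
  congr 2
  conv_lhs => rw [← Finsupp.sum_single δ]
  rw [Finsupp.sum]
  refine Finset.sum_congr rfl fun v _ => ?_
  rw [Finsupp.smul_single, smul_eq_mul, mul_one]

end Multi

section Main

variable {K : Type} [Field K] [Algebra ℂ K] {N n : ℕ} {w : Fin (N + 1) → K} {i₀ : Fin (N + 1)}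
  {H₀ : DivZ w} {μ : MultilinearMap ℝ (fun _ : Fin n => DivR w) ℝ}
  {L J : Type} [Field L] [Algebra K L] [Algebra ℂ L] [IsScalarTower ℂ K L] [Fintype J]
  {S : J → Sys K} {D : J → DivZ w} {U : Var S → L}

/-- intersection with a prime divisor, in the form used here -/
lemma md2 (hMD : T_MD) (hw : IsSmoothProj w n) (hH : IsHyp i₀ H₀) (hμ : IsIntersectionForm μ)
    (hc : Fintype.card J + 3 = n) (hS : ∀ j, Nice i₀ H₀ (D j) (S j)) {A A' : DivZ w}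
    {T T' : Sys K} (hT : Nice i₀ H₀ A T) (hT' : Nice i₀ H₀ A' T') (v : PDiv w) :
    ofMulti μ (Finsupp.single v 1 ::ₘ toR A ::ₘ toR A' ::ₘ ms fun j => toR (D j)) =
      (Idx (fun j => v.1.res (Sum.elim S ![T, T'] j)) ℂ : ℝ) := by
  have h := hMD K N n w i₀ H₀ μ hw (by omega) hH hμ (J ⊕ Fin 2) (Sum.elim D ![A, A'])
    (Sum.elim S ![T, T']) (by simp; omega) (nice_elim hS (nice_fin2 hT hT')) v
  rw [← h]
  congr 2
  exact (ms_elim2 (fun j => toR (D j)) ![toR A, toR A'] _ (fun _ => rfl)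
    (fun i => by fin_cases i <;> rfl)).symm

/-- intersection numbers with three further divisors -/
lemma mx3 (hMX : T_MX) (hw : IsSmoothProj w n) (hH : IsHyp i₀ H₀) (hμ : IsIntersectionForm μ)
    (hc : Fintype.card J + 3 = n) (hS : ∀ j, Nice i₀ H₀ (D j) (S j)) {A A' A'' : DivZ w}
    {T T' T'' : Sys K} (hT : Nice i₀ H₀ A T) (hT' : Nice i₀ H₀ A' T')
    (hT'' : Nice i₀ H₀ A'' T'') :
    ofMulti μ (toR A ::ₘ toR A' ::ₘ toR A'' ::ₘ ms fun j => toR (D j)) =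
      (Idx (Sum.elim S ![T, T', T'']) ℂ : ℝ) := by
  have h := hMX K N n w i₀ H₀ μ hw (by omega) hH hμ (J ⊕ Fin 3) (Sum.elim D ![A, A', A''])
    (Sum.elim S ![T, T', T'']) (by simp; omega) (nice_elim hS (nice_fin3 hT hT' hT''))
  rw [← h]
  congr 2
  exact (ms_elim3 (fun j => toR (D j)) ![toR A, toR A', toR A''] _ (fun _ => rfl)
    (fun i => by fin_cases i <;> rfl)).symm

lemma dim3 (hw : IsSmoothProj w n) (hc : Fintype.card J + 3 = n) :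
    Algebra.trdeg ℂ K = (Fintype.card J + Fintype.card (Fin 2) + 1 : ℕ) := by
  rw [hw.dim, Fintype.card_fin, ← hc]

/-- the type D case -/
theorem se_D (hC1 : T_C1) (hC1g : T_C1g) (hXS : T_XS) (hMD : T_MD) (hXQ : T_XQ)
    (hw : IsSmoothProj w n) (hH : IsHyp i₀ H₀) (hμ : IsIntersectionForm μ)
    (hc : Fintype.card J + 3 = n) (hS : ∀ j, Nice i₀ H₀ (D j) (S j)) (hU : IsGen S U)
    (hUi : AlgebraicIndependent ℂ U) {A₀ : DivZ w} {T₀ : Sys K} (hT₀ : Nice i₀ H₀ A₀ T₀)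
    (u : DV (kU ℂ U) L) (hu : Rel K L J S U T₀ u) (hx : ∃ x : K, u.ord (algebraMap K L x) ≠ 0) :
    ∃ v : PDiv w, ∀ (A A' : DivZ w) (T T' : Sys K), Nice i₀ H₀ A T → Nice i₀ H₀ A' T' →
      ofMulti μ (Finsupp.single v 1 ::ₘ toR A ::ₘ toR A' ::ₘ ms fun j => toR (D j)) =
        (Idx ![u.res (T.up L), u.res (T'.up L)] (kU ℂ U) : ℝ) := by
  obtain ⟨-, -, -, -, -, q6⟩ := hXQ K N n w hw i₀ H₀ hH
  have hSN : ∀ j, (S j).Nz := fun j => (q6 _ _ (hS j)).2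
  have hTN : ∀ {A A' : DivZ w} {T T' : Sys K}, Nice i₀ H₀ A T → Nice i₀ H₀ A' T' →
      ∀ j, (![T, T'] j).Nz := fun h h' j => (q6 _ _ (nice_fin2 h h' j)).2
  have hu' : Idx (fun j : Fin 2 => u.res ((![T₀, T₀] j).up L)) (kU ℂ U) ≠ 0 := by
    rw [up2, ← up2']; exact hu
  obtain ⟨v, hG, hv⟩ := hC1 ℂ K L J (Fin 2) S ![T₀, T₀] U u hSN (hTN hT₀ hT₀) hU hUi
    (dim3 hw hc) hu' hx
  have hpd : IsPrimeDivisor w v := by
    by_contra hnp
    have h0 := hXS K N n w hw (J ⊕ Fin 2) (Sum.elim S ![T₀, T₀]) (by simp; omega)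
      (fun j => ⟨_, (q6 _ _ (nice_elim hS (nice_fin2 hT₀ hT₀) j)).1⟩) v hnp
    rw [h0] at hv
    exact hu' hv
  refine ⟨⟨v, hpd⟩, fun A A' T T' hT hT' => ?_⟩
  rw [md2 hMD hw hH hμ hc hS hT hT', ← up2,
    hC1g ℂ K L J (Fin 2) S ![T, T'] U v u hSN (hTN hT hT') hU hUi hG]

/-- numerical data of a type P valuation: class and formula -/
theorem se_P1 (hGL : SCB.T_GL) (hC2 : T_C2) (hC3 : T_C3) (hXS : T_XS) (hPX : T_PX) (hMD : T_MD)
    (hXQ : T_XQ) (hXI : T_XI)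
    (hw : IsSmoothProj w n) (hH : IsHyp i₀ H₀) (hμ : IsIntersectionForm μ)
    (hc : Fintype.card J + 3 = n) (hS : ∀ j, Nice i₀ H₀ (D j) (S j)) (hU : IsGen S U)
    (hUi : AlgebraicIndependent ℂ U) {A₀ : DivZ w} {T₀ : Sys K} (hT₀ : Nice i₀ H₀ A₀ T₀)
    (u : DV (kU ℂ U) L) (hu : Rel K L J S U T₀ u) (hx : ∀ x : K, u.ord (algebraMap K L x) = 0) :
    (∃ (i0 : ∀ j, Fin (S j).r) (p : MvPolynomial {x : Var S // x.2 ≠ i0 x.1} K),
      (∀ j, (S j).s (i0 j) ≠ 0) ∧ Irreducible p ∧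
      u.ord (MvPolynomial.aeval (fun x : {x : Var S // x.2 ≠ i0 x.1} => U x.1) p) = 1 ∧
      ∀ q : MvPolynomial {x : Var S // x.2 ≠ i0 x.1} K, ¬ p ∣ q →
        u.ord (MvPolynomial.aeval (fun x : {x : Var S // x.2 ≠ i0 x.1} => U x.1) q) = 0) ∧
    ∃ δ : DivR w, ∀ (A A' : DivZ w) (T T' : Sys K), Nice i₀ H₀ A T → Nice i₀ H₀ A' T' →
      ofMulti μ (δ ::ₘ toR A ::ₘ toR A' ::ₘ ms fun j => toR (D j)) =
        (Idx ![u.res (T.up L), u.res (T'.up L)] (kU ℂ U) : ℝ) := by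
  classical
  have : Algebra.EssFiniteType ℂ K := hXI K N n w hw
  obtain ⟨-, -, -, -, -, q6⟩ := hXQ K N n w hw i₀ H₀ hH
  have hSN : ∀ j, (S j).Nz := fun j => (q6 _ _ (hS j)).2
  have hTN : ∀ {A A' : DivZ w} {T T' : Sys K}, Nice i₀ H₀ A T → Nice i₀ H₀ A' T' →
      ∀ j, (![T, T'] j).Nz := fun h h' j => (q6 _ _ (nice_fin2 h h' j)).2
  have hu' : Idx (fun j : Fin 2 => u.res ((![T₀, T₀] j).up L)) (kU ℂ U) ≠ 0 := by
    rw [up2, ← up2']; exact hu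
  choose i0 hi0 using hSN
  obtain ⟨p, hp1, hp2, hp3⟩ := hC2 ℂ K L J (Fin 2) S ![T₀, T₀] U u i0 (hTN hT₀ hT₀) hU hi0 hUi
    (dim3 hw hc) hu' hx
  refine ⟨⟨i0, p, hi0, hp1, hp2, hp3⟩, ?_⟩
  obtain ⟨ν, hν⟩ := hC3 ℂ K L J S U u i0 (fun j => ⟨_, hi0 j⟩) hU hi0 hUi hx p hp1 hp2 hp3
  -- finiteness
  have hne : ∀ {A A' : DivZ w} {T T' : Sys K}, Nice i₀ H₀ A T → Nice i₀ H₀ A' T' →
      ∀ v : PDiv w, Idx (fun j => v.1.res (Sum.elim S ![T, T'] j)) ℂ ≠ 0 := by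
    intro A A' T T' h h' v
    exact (hPX K N n w i₀ H₀ hw hH (J ⊕ Fin 2) (Sum.elim D ![A, A']) (Sum.elim S ![T, T'])
      (nice_elim hS (nice_fin2 h h'))).2 (by simp; omega) v
  have hfin : (Function.support fun v : PDiv w => (ν v.1 : ℝ)).Finite := by
    have h1 := (hν (Fin 2) ![T₀, T₀] (hTN hT₀ hT₀) (dim3 hw hc)).1
    refine Set.Finite.of_finite_image (f := Subtype.val) (h1.subset ?_)
      Subtype.val_injective.injOn
    rintro _ ⟨v, hv, rfl⟩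
    refine ⟨?_, hne hT₀ hT₀ v⟩
    have : (ν v.1 : ℝ) ≠ 0 := hv
    exact_mod_cast this
  let δ : DivR w := Finsupp.ofSupportFinite (fun v : PDiv w => (ν v.1 : ℝ)) hfin
  have hδ : ∀ v : PDiv w, δ v = (ν v.1 : ℝ) := fun v => rfl
  refine ⟨δ, fun A A' T T' hT hT' => ?_⟩
  rw [ofMulti_finsupp hGL μ hμ.1 _ (by simp [card_ms]; omega) δ]
  have h2 := (hν (Fin 2) ![T, T'] (hTN hT hT') (dim3 hw hc)).2
  rw [up2] at h2
  have h3 : ∑ᶠ v : DV ℂ K, ν v * (Idx (fun j => v.res (Sum.elim S ![T, T'] j)) ℂ : ℤ) =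
      ∑ v ∈ δ.support.map (Function.Embedding.subtype _),
        ν v * (Idx (fun j => v.res (Sum.elim S ![T, T'] j)) ℂ : ℤ) := by
    refine finsum_eq_sum_of_support_subset _ ?_
    intro v hv
    rw [Function.mem_support] at hv
    have hv1 : ν v ≠ 0 := left_ne_zero_of_mul hv
    have hv2 := right_ne_zero_of_mul hv
    have hpd : IsPrimeDivisor w v := by
      by_contra hnp
      have h0 := hXS K N n w hw (J ⊕ Fin 2) (Sum.elim S ![T, T']) (by simp; omega)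
        (fun j => ⟨_, (q6 _ _ (nice_elim hS (nice_fin2 hT hT') j)).1⟩) v hnp
      rw [h0] at hv2
      exact hv2 rfl
    simp only [Finset.coe_map, Set.mem_image, Finset.mem_coe, Finsupp.mem_support_iff]
    refine ⟨⟨v, hpd⟩, ?_, rfl⟩
    rw [hδ]
    exact_mod_cast hv1
  rw [h3, Finset.sum_map] at h2
  have h4 := congrArg (Int.cast : ℤ → ℝ) h2
  push_cast at h4
  rw [h4]
  refine Finset.sum_congr rfl fun v _ => ?_
  rw [md2 hMD hw hH hμ hc hS hT hT' v, hδ]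
  rfl

/-- (2) the form of a type P class is Lorentzian -/
theorem se_P2 (hGL : SCB.T_GL) (hC4a : T_C4a) (hSR : T_SR) (hXR4 : T_XR4) (hYLL : T_YLL)
    (hHOD : T_HOD) (hXQ : T_XQ) (hSPN : T_SPN) (hXI : T_XI) (hXR1 : T_XR1)
    (hw : IsSmoothProj w n) (hH : IsHyp i₀ H₀) (hμ : IsIntersectionForm μ)
    (hc : Fintype.card J + 3 = n) (hS : ∀ j, Nice i₀ H₀ (D j) (S j)) (hU : IsGen S U)
    (hUi : AlgebraicIndependent ℂ U) {A₀ : DivZ w} {T₀ : Sys K} (hT₀ : Nice i₀ H₀ A₀ T₀)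
    (u : DV (kU ℂ U) L) (hu : Rel K L J S U T₀ u) (hx : ∀ x : K, u.ord (algebraMap K L x) = 0)
    (hp : ∃ (i0 : ∀ j, Fin (S j).r) (p : MvPolynomial {x : Var S // x.2 ≠ i0 x.1} K),
      (∀ j, (S j).s (i0 j) ≠ 0) ∧ Irreducible p ∧
      u.ord (MvPolynomial.aeval (fun x : {x : Var S // x.2 ≠ i0 x.1} => U x.1) p) = 1 ∧
      ∀ q : MvPolynomial {x : Var S // x.2 ≠ i0 x.1} K, ¬ p ∣ q →
        u.ord (MvPolynomial.aeval (fun x : {x : Var S // x.2 ≠ i0 x.1} => U x.1) q) = 0)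
    (δ : DivR w) (hδ : ∀ (A A' : DivZ w) (T T' : Sys K), Nice i₀ H₀ A T → Nice i₀ H₀ A' T' →
      ofMulti μ (δ ::ₘ toR A ::ₘ toR A' ::ₘ ms fun j => toR (D j)) =
        (Idx ![u.res (T.up L), u.res (T'.up L)] (kU ℂ U) : ℝ)) :
    Lor (fun x y => ofMulti μ (δ ::ₘ x ::ₘ y ::ₘ ms fun j => toR (D j))) := by
  have : Algebra.EssFiniteType ℂ K := hXI K N n w hw
  obtain ⟨q1, -, -, q4, -, q6⟩ := hXQ K N n w hw i₀ H₀ hH
  have hSN : ∀ j, (S j).Nz := fun j => (q6 _ _ (hS j)).2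
  have hTN : ∀ {A A' : DivZ w} {T T' : Sys K}, Nice i₀ H₀ A T → Nice i₀ H₀ A' T' →
      ∀ j, (![T, T'] j).Nz := fun h h' j => (q6 _ _ (nice_fin2 h h' j)).2
  have hu' : Idx (fun j : Fin 2 => u.res ((![T₀, T₀] j).up L)) (kU ℂ U) ≠ 0 := by
    rw [up2, ← up2']; exact hu
  obtain ⟨i0, p, hi0, hp1, hp2, hp3⟩ := hp
  obtain ⟨hE, htr, hadj⟩ := hC4a ℂ K L J (Fin 2) S ![T₀, T₀] U u i0 (hTN hT₀ hT₀) hU hi0 hUi hu'
    hx p hp1 hp2 hp3
  obtain ⟨-, hadd, hsmul⟩ := hGL (DivR w) n μ hμ.1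
  have hcs : (ms fun j => toR (D j)).card + 3 = n := by rw [card_ms]; exact hc
  refine hYLL (DivR w) _ {x | ∃ A : DivZ w, VAmp H₀ A ∧ x = toR A} ?_ ?_ ?_ ?_ ?_
  · refine ⟨fun x y => ?_, fun a b y => ?_, fun c a y => ?_⟩
    · show ofMulti μ _ = ofMulti μ _
      rw [Multiset.cons_swap x y]
    · show ofMulti μ _ = ofMulti μ _ + ofMulti μ _
      rw [Multiset.cons_swap δ, hadd _ _ _ (by simp only [Multiset.card_cons]; omega),
        Multiset.cons_swap a, Multiset.cons_swap b]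
    · show ofMulti μ _ = c * ofMulti μ _
      rw [Multiset.cons_swap δ, hsmul _ _ _ (by simp only [Multiset.card_cons]; omega),
        Multiset.cons_swap a]
  · rintro _ ⟨A, hA, rfl⟩ _ ⟨B, hB, rfl⟩
    refine ⟨A + B, q1 A B hA hB, ?_⟩
    ext v
    simp [toR]
  · exact (hSPN K N n w i₀ H₀ hw hH).2.1
  · rintro _ ⟨A, hA, rfl⟩ _ ⟨B, hB, rfl⟩
    obtain ⟨T, hT⟩ := (q4 A).1 hA
    obtain ⟨T', hT'⟩ := (q4 B).1 hB
    show 0 < ofMulti μ _
    rw [hδ A B T T' hT hT']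
    have h := hSR K N n w i₀ H₀ hw hH L J S D U hc hS hU hUi A₀ A₀ A B T₀ T₀ T T' hT₀ hT₀ hT hT' u
      (by rw [← up2']; exact hu)
    exact_mod_cast Nat.pos_of_ne_zero h
  · rintro _ ⟨A, hA, rfl⟩ _ ⟨B, hB, rfl⟩
    obtain ⟨T, hT⟩ := (q4 A).1 hA
    obtain ⟨T', hT'⟩ := (q4 B).1 hB
    show ofMulti μ _ * ofMulti μ _ ≤ ofMulti μ _ ^ 2
    rw [hδ A B T T' hT hT', hδ A A T T hT hT, hδ B B T' T' hT' hT']
    have hgen : ∀ {A : DivZ w} {T : Sys K}, Nice i₀ H₀ A T →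
        Generates (kU ℂ U) (u.res (T.up L)) := by
      intro A T hT
      exact hXR4 ℂ K L J S U T u hx (q6 _ _ hT).2 hadj (hXR1 K N n w hw i₀ H₀ A T hH hT)
    have hres : ∀ {A : DivZ w} {T : Sys K}, Nice i₀ H₀ A T → (u.res (T.up L)).Nz :=
      fun hT => DV.res_nz u (Sys.up_nz L (q6 _ _ hT).2)
    have h := hHOD (kU ℂ U) u.Res (u.res (T.up L)) (u.res (T'.up L)) (by simpa using htr)
      (hres hT) (hres hT') (hgen hT) (hgen hT')
    exact_mod_cast h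

open Classical in
/-- (3) moving a type P class -/
theorem se_P3 (hGL : SCB.T_GL) (hC4 : T_C4) (hMX : T_MX) (hSG : T_SG) (hG1a : T_G1a)
    (hXQ : T_XQ) (hXI : T_XI) (hXR1 : T_XR1)
    (hw : IsSmoothProj w n) (hH : IsHyp i₀ H₀) (hμ : IsIntersectionForm μ)
    (hc : Fintype.card J + 3 = n) (hS : ∀ j, Nice i₀ H₀ (D j) (S j)) (hU : IsGen S U)
    (hUi : AlgebraicIndependent ℂ U) {A₀ : DivZ w} {T₀ : Sys K} (hT₀ : Nice i₀ H₀ A₀ T₀)
    (u : DV (kU ℂ U) L) (hu : Rel K L J S U T₀ u) (hx : ∀ x : K, u.ord (algebraMap K L x) = 0)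
    (δ : DivR w) (hδ : ∀ (A A' : DivZ w) (T T' : Sys K), Nice i₀ H₀ A T → Nice i₀ H₀ A' T' →
      ofMulti μ (δ ::ₘ toR A ::ₘ toR A' ::ₘ ms fun j => toR (D j)) =
        (Idx ![u.res (T.up L), u.res (T'.up L)] (kU ℂ U) : ℝ)) :
    ∃ j : J, ∀ G B A : DivZ w, VAmp H₀ G → VAmp H₀ B → VAmp H₀ A →
    3 * ofMulti μ (toR G ::ₘ toR G ::ₘ toR B ::ₘ toR A ::ₘ
        mss (Finset.univ.erase j) fun j => toR (D j)) <
      ofMulti μ (toR G ::ₘ toR G ::ₘ toR G ::ₘ toR A ::ₘ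
        mss (Finset.univ.erase j) fun j => toR (D j)) →
    0 ≤ ofMulti μ (δ ::ₘ (toR G - toR B) ::ₘ toR A ::ₘ ms fun j => toR (D j)) := by
  have : Algebra.EssFiniteType ℂ K := hXI K N n w hw
  obtain ⟨-, -, -, q4, -, q6⟩ := hXQ K N n w hw i₀ H₀ hH
  have hSN : ∀ j, (S j).Nz := fun j => (q6 _ _ (hS j)).2
  have hTN : ∀ {A A' : DivZ w} {T T' : Sys K}, Nice i₀ H₀ A T → Nice i₀ H₀ A' T' →
      ∀ j, (![T, T'] j).Nz := fun h h' j => (q6 _ _ (nice_fin2 h h' j)).2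
  have hu' : Idx (fun j : Fin 2 => u.res ((![T₀, T₀] j).up L)) (kU ℂ U) ≠ 0 := by
    rw [up2, ← up2']; exact hu
  have hdim : Algebra.trdeg ℂ K = (Fintype.card J + 3 : ℕ) := by rw [hw.dim, ← hc]
  obtain ⟨j, hj⟩ := hC4 ℂ K L J (Fin 2) S ![T₀, T₀] U u hSN (hTN hT₀ hT₀) hU hUi
    (Fintype.card_fin 2) hdim hu' hx
  refine ⟨j, fun G B A hG hB hA hlt => ?_⟩
  obtain ⟨TG, hTG⟩ := (q4 G).1 hG
  obtain ⟨TB, hTB⟩ := (q4 B).1 hB
  obtain ⟨TA, hTA⟩ := (q4 A).1 hA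
  have hS' : ∀ l, Nice i₀ H₀ (Function.update D j A l) (Function.update S j TA l) := by
    intro l
    by_cases h : l = j
    · subst h; simpa using hTA
    · simpa [h] using hS l
  have hSN' : ∀ l, (Function.update S j TA l).Nz := fun l => (q6 _ _ (hS' l)).2
  have hms : (ms fun l => toR (Function.update D j A l)) =
      toR A ::ₘ mss (Finset.univ.erase j) fun l => toR (D l) := by
    rw [← ms_update]
    congr 1
    funext l
    by_cases h : l = j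
    · subst h; simp
    · simp [h]
  have e1 := mx3 hMX hw hH hμ hc hS' hTG hTG hTB
  have e2 := mx3 hMX hw hH hμ hc hS' hTG hTG hTG
  rw [hms] at e1 e2
  rw [e1, e2] at hlt
  have hlt' : 3 * Idx (Sum.elim (Function.update S j TA) ![TG, TG, TB]) ℂ <
      Idx (Sum.elim (Function.update S j TA) ![TG, TG, TG]) ℂ := by exact_mod_cast hlt
  have hgen := hG1a K J (Function.update S j TA) hSN'
  obtain ⟨-, m, hm, g, hg, hg0⟩ := hSG K (Gen (Function.update S j TA)) J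
    (Function.update S j TA) (genU (Function.update S j TA)) TG TB hSN' (q6 _ _ hTG).2
    (q6 _ _ hTB).2 (hXR1 K N n w hw i₀ H₀ G TG hH hTG) (hXR1 K N n w hw i₀ H₀ B TB hH hTB) hgen
    hdim hlt'
  have h := hj TA (q6 _ _ hTA).2 (Gen (Function.update S j TA)) (genU (Function.update S j TA))
    hgen [((m : ℤ), TG), (-(m : ℤ), TB)]
    (by
      intro p hp
      simp only [List.mem_cons, List.not_mem_nil, or_false] at hp
      rcases hp with rfl | rfl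
      · exact (q6 _ _ hTG).2
      · exact (q6 _ _ hTB).2)
    ⟨g, by simpa using hg, hg0⟩
  simp only [List.map_cons, List.map_nil, List.sum_cons, List.sum_nil, add_zero, up2] at h
  have h' : (Idx ![u.res (TB.up L), u.res (TA.up L)] (kU ℂ U) : ℝ) ≤
      (Idx ![u.res (TG.up L), u.res (TA.up L)] (kU ℂ U) : ℝ) := by
    have hm' : (0 : ℤ) < m := by exact_mod_cast hm
    have : (Idx ![u.res (TB.up L), u.res (TA.up L)] (kU ℂ U) : ℤ) ≤
        (Idx ![u.res (TG.up L), u.res (TA.up L)] (kU ℂ U) : ℤ) := by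
      by_contra hcon
      push Not at hcon
      nlinarith [mul_lt_mul_of_pos_left hcon hm']
    exact_mod_cast this
  obtain ⟨-, hadd, hsmul⟩ := hGL (DivR w) n μ hμ.1
  have hcs : (ms fun j => toR (D j)).card + 3 = n := by rw [card_ms]; exact hc
  have hk : (δ ::ₘ toR A ::ₘ ms fun j => toR (D j)).card + 1 = n := by
    simp only [Multiset.card_cons]; omega
  have e3 : ofMulti μ (δ ::ₘ (toR G - toR B) ::ₘ toR A ::ₘ ms fun j => toR (D j)) =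
      ofMulti μ (δ ::ₘ toR G ::ₘ toR A ::ₘ ms fun j => toR (D j)) -
        ofMulti μ (δ ::ₘ toR B ::ₘ toR A ::ₘ ms fun j => toR (D j)) := by
    rw [Multiset.cons_swap δ (toR G - toR B), sub_eq_add_neg, ← neg_one_smul ℝ (toR B),
      hadd _ _ _ hk, hsmul _ _ _ hk, Multiset.cons_swap (toR G) δ, Multiset.cons_swap (toR B) δ]
    ring
  rw [e3, hδ G A TG TA hTG hTA, hδ B A TB TA hTB hTA]
  linarith

end Main

theorem se (hC1 : T_C1) (hC1g : T_C1g) (hC2 : T_C2) (hC3 : T_C3) (hC4a : T_C4a) (hC4 : T_C4)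
    (hSR : T_SR) (hXS : T_XS) (hPX : T_PX) (hMD : T_MD) (hMX : T_MX) (hSG : T_SG) (hXR4 : T_XR4)
    (hYLL : T_YLL) (hHOD : T_HOD) (hXQ : T_XQ) (hSPN : T_SPN) (hXI : T_XI) (hGL : SCB.T_GL)
    (hG1a : T_G1a) (hXR1 : T_XR1) : T_SE := by
  intro K _ _ N n w i₀ H₀ μ hw hH hμ L J _ _ _ _ _ S D U hc hS hU hUi A₀ T₀ hT₀ u hu
  by_cases hx : ∃ x : K, u.ord (algebraMap K L x) ≠ 0
  · obtain ⟨v, hv⟩ := se_D hC1 hC1g hXS hMD hXQ hw hH hμ hc hS hU hUi hT₀ u hu hx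
    exact ⟨Finsupp.single v 1, hv, Or.inl ⟨v, rfl⟩⟩
  · push Not at hx
    obtain ⟨hp, δ, hδ⟩ := se_P1 hGL hC2 hC3 hXS hPX hMD hXQ hXI hw hH hμ hc hS hU hUi hT₀ u hu hx
    refine ⟨δ, hδ, Or.inr ⟨?_, ?_, ?_⟩⟩
    · intro A A' hA hA'
      obtain ⟨-, -, -, q4, -, -⟩ := hXQ K N n w hw i₀ H₀ hH
      obtain ⟨T, hT⟩ := (q4 A).1 hA
      obtain ⟨T', hT'⟩ := (q4 A').1 hA'
      rw [hδ A A' T T' hT hT']
      exact Nat.cast_nonneg _
    · exact se_P2 hGL hC4a hSR hXR4 hYLL hHOD hXQ hSPN hXI hXR1 hw hH hμ hc hS hU hUi hT₀ u hu hx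
        hp δ hδ
    · exact se_P3 hGL hC4 hMX hSG hG1a hXQ hXI hXR1 hw hH hμ hc hS hU hUi hT₀ u hu hx δ hδ

end Pool.Agent.H29.SCX
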