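import Pool.Agent.H15.SC.TargetsY

/-!
Block B5 (MP_f2954d_ag), module YLL: from reverse Cauchy-Schwarz on a spanning semigroup to a
Lorentzian form (helper29).
-/

namespace Pool.Agent.H29.SCX

open SC SCB Filter Topology

section

variable {M : Type} [AddCommGroup M] [Module ℝ M] {q : M → M → ℝ} {V : Set M}

lemma yll_sum1 (hq : SymBil q) (s : Finset M) (f : M → ℝ) (y : M) :
    q (∑ a ∈ s, f a • a) y = ∑ a ∈ s, f a * q a y := by
  classical
  induction s using Finset.induction_on with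
  | empty => simp [hq.zero]
  | insert a s ha ih => rw [Finset.sum_insert ha, Finset.sum_insert ha, hq.add, hq.smul, ih]

lemma yll_sum2 (hq : SymBil q) (s : Finset M) (f g : M → ℝ) :
    q (∑ a ∈ s, f a • a) (∑ b ∈ s, g b • b) = ∑ a ∈ s, ∑ b ∈ s, f a * (g b * q b a) := by
  rw [yll_sum1 hq]
  refine Finset.sum_congr rfl fun a _ => ?_
  rw [hq.symm, yll_sum1 hq, Finset.mul_sum]

/-- the semigroup with zero -/
def yll0 (hV : ∀ a ∈ V, ∀ b ∈ V, a + b ∈ V) : AddSubmonoid M where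
  carrier := {x | x ∈ V ∨ x = 0}
  zero_mem' := Or.inr rfl
  add_mem' := by
    rintro a b (ha | rfl) (hb | rfl)
    · exact Or.inl (hV a ha b hb)
    · simpa using Or.inl ha
    · simpa using Or.inl hb
    · simp

lemma yll_nat (hq : SymBil q) (hV : ∀ a ∈ V, ∀ b ∈ V, a + b ∈ V)
    (hin : ∀ a ∈ V, ∀ b ∈ V, q a a * q b b ≤ q a b ^ 2) (s : Finset M) (hs : ↑s ⊆ V)
    (m k : M → ℕ) (f g : M → ℝ) (hf : ∀ a, f a = m a) (hg : ∀ a, g a = k a) :
    q (∑ a ∈ s, f a • a) (∑ a ∈ s, f a • a) * q (∑ a ∈ s, g a • a) (∑ a ∈ s, g a • a) ≤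
      q (∑ a ∈ s, f a • a) (∑ a ∈ s, g a • a) ^ 2 := by
  have key : ∀ (m : M → ℕ) (f : M → ℝ), (∀ a, f a = m a) → (∑ a ∈ s, f a • a) ∈ yll0 hV := by
    intro m f hf
    refine sum_mem fun a ha => ?_
    rw [hf a, Nat.cast_smul_eq_nsmul]
    exact nsmul_mem (Or.inl (hs ha)) _
  rcases key m f hf with h1 | h1
  · rcases key k g hg with h2 | h2
    · exact hin _ h1 _ h2
    · rw [h2, hq.zero, hq.zero']; simp
  · rw [h1, hq.zero, hq.zero]; simp

lemma yll_real (hq : SymBil q) (hV : ∀ a ∈ V, ∀ b ∈ V, a + b ∈ V)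
    (hin : ∀ a ∈ V, ∀ b ∈ V, q a a * q b b ≤ q a b ^ 2) (s : Finset M) (hs : ↑s ⊆ V)
    (f g : M → ℝ) (hf : ∀ a, 0 ≤ f a) (hg : ∀ a, 0 ≤ g a) :
    q (∑ a ∈ s, f a • a) (∑ a ∈ s, f a • a) * q (∑ a ∈ s, g a • a) (∑ a ∈ s, g a • a) ≤
      q (∑ a ∈ s, f a • a) (∑ a ∈ s, g a • a) ^ 2 := by
  have hlim : ∀ (f : M → ℝ), (∀ a, 0 ≤ f a) → ∀ a,
      Tendsto (fun n : ℕ => ((⌊f a * (n : ℝ)⌋₊ : ℝ) / (n : ℝ))) atTop (𝓝 (f a)) := by
    intro f hf a
    exact (tendsto_nat_floor_mul_div_atTop (hf a)).comp tendsto_natCast_atTop_atTop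
  have hT : ∀ f g : M → ℝ, (∀ a, 0 ≤ f a) → (∀ a, 0 ≤ g a) →
      Tendsto (fun n : ℕ => q (∑ a ∈ s, ((⌊f a * (n : ℝ)⌋₊ : ℝ) / (n : ℝ)) • a)
        (∑ a ∈ s, ((⌊g a * (n : ℝ)⌋₊ : ℝ) / (n : ℝ)) • a)) atTop
        (𝓝 (q (∑ a ∈ s, f a • a) (∑ a ∈ s, g a • a))) := by
    intro f g hf hg
    simp only [yll_sum2 hq s]
    exact tendsto_finsetSum _ fun a _ => tendsto_finsetSum _ fun b _ =>
      (hlim f hf a).mul ((hlim g hg b).mul_const _)
  refine le_of_tendsto_of_tendsto ((hT f f hf hf).mul (hT g g hg hg)) ((hT f g hf hg).pow 2) ?_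
  filter_upwards with n
  have e : ∀ f : M → ℝ, (∑ a ∈ s, ((⌊f a * (n : ℝ)⌋₊ : ℝ) / (n : ℝ)) • a) =
      ((n : ℝ)⁻¹) • ∑ a ∈ s, ((⌊f a * (n : ℝ)⌋₊ : ℝ)) • a := by
    intro f
    rw [Finset.smul_sum]
    refine Finset.sum_congr rfl fun a _ => ?_
    rw [smul_smul, div_eq_inv_mul]
  rw [e f, e g]
  simp only [hq.smul, hq.smul']
  have h := yll_nat hq hV hin s hs (fun a => ⌊f a * (n : ℝ)⌋₊) (fun a => ⌊g a * (n : ℝ)⌋₊)
    (fun a => ((⌊f a * (n : ℝ)⌋₊ : ℝ))) (fun a => ((⌊g a * (n : ℝ)⌋₊ : ℝ))) (fun _ => rfl)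
    (fun _ => rfl)
  have h4 : 0 ≤ ((n : ℝ)⁻¹) ^ 4 := by positivity
  have := mul_le_mul_of_nonneg_left h h4
  calc _ = ((n : ℝ)⁻¹) ^ 4 * (q (∑ a ∈ s, ((⌊f a * (n : ℝ)⌋₊ : ℝ)) • a)
        (∑ a ∈ s, ((⌊f a * (n : ℝ)⌋₊ : ℝ)) • a) * q (∑ a ∈ s, ((⌊g a * (n : ℝ)⌋₊ : ℝ)) • a)
        (∑ a ∈ s, ((⌊g a * (n : ℝ)⌋₊ : ℝ)) • a)) := by ring
    _ ≤ _ := this
    _ = _ := by ring

/-- the real cone generated by `V` -/
lemma yll_cone (hq : SymBil q) (hV : ∀ a ∈ V, ∀ b ∈ V, a + b ∈ V)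
    (hin : ∀ a ∈ V, ∀ b ∈ V, q a a * q b b ≤ q a b ^ 2) {c d : M}
    (hc : c ∈ Submodule.span NNReal V) (hd : d ∈ Submodule.span NNReal V) :
    q c c * q d d ≤ q c d ^ 2 := by
  classical
  obtain ⟨S, hS, hcS⟩ := Submodule.mem_span_finite_of_mem_span hc
  obtain ⟨T, hT, hdT⟩ := Submodule.mem_span_finite_of_mem_span hd
  have hc' : c ∈ Submodule.span NNReal ((S ∪ T : Finset M) : Set M) :=
    Submodule.span_mono (by simp) hcS
  have hd' : d ∈ Submodule.span NNReal ((S ∪ T : Finset M) : Set M) :=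
    Submodule.span_mono (by simp) hdT
  obtain ⟨f, -, hf⟩ := Submodule.mem_span_finset.1 hc'
  obtain ⟨g, -, hg⟩ := Submodule.mem_span_finset.1 hd'
  rw [← hf, ← hg]
  exact yll_real hq hV hin (S ∪ T) (by simp [hS, hT]) (fun a => (f a : ℝ)) (fun a => (g a : ℝ))
    (fun a => (f a).2) (fun a => (g a).2)

lemma yll_nonneg (hq : SymBil q) (hp : ∀ a ∈ V, ∀ b ∈ V, 0 < q a b) {c d : M}
    (hc : c ∈ Submodule.span NNReal V) (hd : d ∈ Submodule.span NNReal V) : 0 ≤ q c d := by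
  have h1 : ∀ a ∈ V, 0 ≤ q a d := by
    intro a ha
    induction hd using Submodule.span_induction with
    | mem b hb => exact (hp a ha b hb).le
    | zero => rw [hq.zero']
    | add x y _ _ hx hy => rw [hq.add']; exact add_nonneg hx hy
    | smul r x _ hx =>
      have : q a (r • x) = (r : ℝ) * q a x := hq.smul' (r : ℝ) a x
      rw [this]; exact mul_nonneg r.2 hx
  induction hc using Submodule.span_induction with
  | mem b hb => exact h1 b hb
  | zero => rw [hq.zero]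
  | add x y _ _ hx hy => rw [hq.add]; exact add_nonneg hx hy
  | smul r x _ hx =>
    have : q (r • x) d = (r : ℝ) * q x d := hq.smul (r : ℝ) x d
    rw [this]; exact mul_nonneg r.2 hx

lemma yll_smul {c : M} (hc : c ∈ Submodule.span NNReal V) {r : ℝ} (hr : 0 ≤ r) :
    r • c ∈ Submodule.span NNReal V := by
  have : (⟨r, hr⟩ : NNReal) • c ∈ Submodule.span NNReal V := Submodule.smul_mem _ _ hc
  exact this

lemma yll_diff {x : M} (hx : x ∈ Submodule.span ℝ V) :
    ∃ c ∈ Submodule.span NNReal V, ∃ d ∈ Submodule.span NNReal V, x = c - d := by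
  induction hx using Submodule.span_induction with
  | mem b hb => exact ⟨b, Submodule.subset_span hb, 0, zero_mem _, by simp⟩
  | zero => exact ⟨0, zero_mem _, 0, zero_mem _, by simp⟩
  | add x y _ _ hx hy =>
    obtain ⟨c, hc, d, hd, rfl⟩ := hx
    obtain ⟨c', hc', d', hd', rfl⟩ := hy
    exact ⟨c + c', add_mem hc hc', d + d', add_mem hd hd', by abel⟩
  | smul r x _ hx =>
    obtain ⟨c, hc, d, hd, rfl⟩ := hx
    rcases le_total 0 r with hr | hr
    · exact ⟨r • c, yll_smul hc hr, r • d, yll_smul hd hr, smul_sub _ _ _⟩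
    · refine ⟨(-r) • d, yll_smul hd (by linarith), (-r) • c, yll_smul hc (by linarith), ?_⟩
      rw [smul_sub, neg_smul, neg_smul]; abel

end

theorem yll : T_YLL := by
  intro M _ _ q V hq hV hspan hp hin x y hxx
  by_contra hlt
  push Not at hlt
  obtain ⟨x1, hx1, x2, hx2, ex⟩ := yll_diff (hspan x)
  obtain ⟨y1, hy1, y2, hy2, ey⟩ := yll_diff (hspan y)
  -- `V` is nonempty
  obtain ⟨v, hv⟩ : V.Nonempty := by
    by_contra hne
    rw [Set.not_nonempty_iff_eq_empty] at hne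
    subst hne
    have := hspan x
    rw [Submodule.span_empty, Submodule.mem_bot] at this
    rw [this, hq.zero] at hxx
    exact lt_irrefl _ hxx
  have hv' : v ∈ Submodule.span NNReal V := Submodule.subset_span hv
  set c : M := v + (x1 + x2 + (y1 + y2)) with hc
  have hcC : (x1 + x2 + (y1 + y2)) ∈ Submodule.span NNReal V :=
    add_mem (add_mem hx1 hx2) (add_mem hy1 hy2)
  have hcpos : 0 < q c c := by
    have e : ∀ w : M, q (v + w) (v + w) = q v v + q v w + (q w v + q w w) := by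
      intro w; rw [hq.add, hq.add', hq.add']
    rw [hc, e]
    have h1 := hp v hv v hv
    have h2 := yll_nonneg hq hp hv' hcC
    have h3 := yll_nonneg hq hp hcC hv'
    have h4 := yll_nonneg hq hp hcC hcC
    linarith
  -- the coefficients
  obtain ⟨s, t, hst, hs1, ht1, hq0⟩ : ∃ s t : ℝ, (s ≠ 0 ∨ t ≠ 0) ∧ |s| ≤ 1 ∧ |t| ≤ 1 ∧
      s * q c x + t * q c y = 0 := by
    by_cases h0 : q c x = 0 ∧ q c y = 0
    · exact ⟨1, 0, Or.inl one_ne_zero, by simp, by simp, by rw [h0.1, h0.2]; ring⟩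
    · have hm : 0 < max |q c x| |q c y| := by
        rcases not_and_or.1 h0 with h | h
        · exact lt_max_of_lt_left (abs_pos.2 h)
        · exact lt_max_of_lt_right (abs_pos.2 h)
      refine ⟨q c y / max |q c x| |q c y|, -(q c x / max |q c x| |q c y|), ?_, ?_, ?_, ?_⟩
      · rcases not_and_or.1 h0 with h | h
        · right; exact neg_ne_zero.2 (div_ne_zero h hm.ne')
        · left; exact div_ne_zero h hm.ne'
      · rw [abs_div, abs_of_pos hm, div_le_one hm]; exact le_max_right _ _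
      · rw [abs_neg, abs_div, abs_of_pos hm, div_le_one hm]; exact le_max_left _ _
      · ring
  set z : M := s • x + t • y with hz
  have hqz : q c z = 0 := by rw [hz, hq.add', hq.smul', hq.smul']; exact hq0
  have hzz : 0 < q z z := by
    have e : q z z = s ^ 2 * q x x + 2 * s * t * q x y + t ^ 2 * q y y := by
      rw [hz, hq.add, hq.add', hq.add', hq.smul, hq.smul, hq.smul, hq.smul, hq.smul', hq.smul',
        hq.smul', hq.smul', hq.symm y x]
      ring
    have e2 : q x x * q z z = (s * q x x + t * q x y) ^ 2 +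
        t ^ 2 * (q x x * q y y - q x y ^ 2) := by
      rw [e]; ring
    by_cases ht : t = 0
    · have hs : s ≠ 0 := by
        rcases hst with h | h
        · exact h
        · exact absurd ht h
      rw [e, ht]
      have : 0 < s ^ 2 := by positivity
      nlinarith [mul_pos this hxx]
    · have h1 : 0 < t ^ 2 := by positivity
      have h2 : 0 < q x x * q z z := by
        rw [e2]
        have := mul_pos h1 (sub_pos.2 hlt)
        have := sq_nonneg (s * q x x + t * q x y)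
        linarith
      exact (pos_iff_pos_of_mul_pos h2).1 hxx
  have hd : c + z ∈ Submodule.span NNReal V := by
    have : c + z = v + ((1 + s) • x1 + (1 - s) • x2 + ((1 + t) • y1 + (1 - t) • y2)) := by
      rw [hc, hz, ex, ey]
      module
    rw [this]
    have hs2 := abs_le.1 hs1
    have ht2 := abs_le.1 ht1
    exact add_mem hv' (add_mem (add_mem (yll_smul hx1 (by linarith)) (yll_smul hx2 (by linarith)))
      (add_mem (yll_smul hy1 (by linarith)) (yll_smul hy2 (by linarith))))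
  have hfin := yll_cone hq hV hin (add_mem hv' hcC) hd
  rw [← hc] at hfin
  have e1 : q (c + z) (c + z) = q c c + q z z := by
    rw [hq.add, hq.add' c c z, hq.add' z c z, hqz, hq.symm z c, hqz]; ring
  have e2 : q c (c + z) = q c c := by rw [hq.add' c c z, hqz]; ring
  rw [e1, e2] at hfin
  nlinarith [mul_pos hcpos hzz]

end Pool.Agent.H29.SCX
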