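import Pool.Agent.H15.SC.TargetsY

/-!
Block B5 (MP_f2954d_ag), module GES: decomposition of a big class of a threefold, for classes
(helper29).
-/

namespace Pool.Agent.H29.SCX

open SC SCB

section

variable {K : Type} [Field K] [Algebra ℂ K] {N n : ℕ} {w : Fin (N + 1) → K}

lemma toR_nsmul (a : ℕ) (D : DivZ w) : toR (a • D) = (a : ℝ) • toR D := by
  ext v
  simp [toR]

lemma vamp_nsmul {H₀ : DivZ w} (h1 : ∀ D D' : DivZ w, VAmp H₀ D → VAmp H₀ D' → VAmp H₀ (D + D'))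
    {D : DivZ w} (hD : VAmp H₀ D) {a : ℕ} (ha : 1 ≤ a) : VAmp H₀ (a • D) := by
  induction a, ha using Nat.le_induction with
  | base => simpa using hD
  | succ a _ ih => rw [succ_nsmul]; exact h1 _ _ ih hD

lemma rat_common {p q : ℚ} (hp : 0 < p) (hq : 0 < q) :
    ∃ (ρ : ℝ) (a b : ℕ), 0 < ρ ∧ 1 ≤ a ∧ 1 ≤ b ∧ (p : ℝ) = ρ * a ∧ (q : ℝ) = ρ * b := by
  have hpn : 0 < p.num := Rat.num_pos.2 hp
  have hqn : 0 < q.num := Rat.num_pos.2 hq
  have hpd : (0 : ℝ) < p.den := by exact_mod_cast p.den_pos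
  have hqd : (0 : ℝ) < q.den := by exact_mod_cast q.den_pos
  refine ⟨1 / (p.den * q.den), p.num.toNat * q.den, q.num.toNat * p.den, by positivity,
    Nat.mul_pos (by omega) q.den_pos, Nat.mul_pos (by omega) p.den_pos, ?_, ?_⟩
  · have e : ((p.num.toNat : ℕ) : ℝ) = (p.num : ℝ) := by
      have : ((p.num.toNat : ℕ) : ℤ) = p.num := Int.toNat_of_nonneg hpn.le
      exact_mod_cast congrArg (Int.cast : ℤ → ℝ) this
    have e2 : (p : ℝ) = (p.num : ℝ) / p.den := by exact_mod_cast (Rat.num_div_den p).symm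
    push_cast
    rw [e, e2]
    field_simp
  · have e : ((q.num.toNat : ℕ) : ℝ) = (q.num : ℝ) := by
      have : ((q.num.toNat : ℕ) : ℤ) = q.num := Int.toNat_of_nonneg hqn.le
      exact_mod_cast congrArg (Int.cast : ℤ → ℝ) this
    have e2 : (q : ℝ) = (q.num : ℝ) / q.den := by exact_mod_cast (Rat.num_div_den q).symm
    push_cast
    rw [e, e2]
    field_simp

variable (μ : MultilinearMap ℝ (fun _ : Fin n => DivR w) ℝ)

/-- the facts used about intersection numbers of classes -/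
structure InsF : Prop where
  h1 : ∀ s : Multiset (DivR w), s.card = n → INS μ (s.map (NTsub μ).mkQ) = ofMulti μ s
  h3 : ∀ (c : ℝ) (a : NS μ) (s : Multiset (NS μ)), s.card + 1 = n →
    INS μ ((c • a) ::ₘ s) = c * INS μ (a ::ₘ s)
  hS : ∀ (ι : Type) (S : Finset ι) (q : ι → ℝ) (x : ι → NS μ) (t : Multiset (NS μ)),
    t.card + S.card = n →
    INS μ (t + mss S (fun i => q i • x i)) = (∏ i ∈ S, q i) * INS μ (t + mss S x)

variable {μ} (hF : InsF μ)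

include hF

lemma ins_gen {J : Type} (S : Finset J) (q : J → ℚ) (D : J → DivZ w) (t : Multiset (DivR w))
    (hc : t.card + S.card = n) :
    INS μ (t.map (NTsub μ).mkQ + mss S (fun j => (q j : ℝ) • (NTsub μ).mkQ (toR (D j)))) =
      (∏ i ∈ S, (q i : ℝ)) * ofMulti μ (t + mss S fun j => toR (D j)) := by
  rw [hF.hS _ S _ _ _ (by simpa using hc), ← hF.h1 _ (by simpa [card_mss] using hc),
    Multiset.map_add]
  congr 3
  simp [mss, Multiset.map_map]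

lemma ins_smul2 (c : ℝ) (x a : NS μ) {s : Multiset (NS μ)} (h : s.card + 2 = n) :
    INS μ (x ::ₘ (c • a) ::ₘ s) = c * INS μ (x ::ₘ a ::ₘ s) := by
  rw [Multiset.cons_swap, hF.h3 _ _ _ (by simp; omega), Multiset.cons_swap]

lemma ins_smul3 (c : ℝ) (x y a : NS μ) {s : Multiset (NS μ)} (h : s.card + 3 = n) :
    INS μ (x ::ₘ y ::ₘ (c • a) ::ₘ s) = c * INS μ (x ::ₘ y ::ₘ a ::ₘ s) := by
  rw [Multiset.cons_swap y, ins_smul2 hF _ _ _ (by simp; omega), Multiset.cons_swap a]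

lemma ins_smul4 (c : ℝ) (x y z a : NS μ) {s : Multiset (NS μ)} (h : s.card + 4 = n) :
    INS μ (x ::ₘ y ::ₘ z ::ₘ (c • a) ::ₘ s) = c * INS μ (x ::ₘ y ::ₘ z ::ₘ a ::ₘ s) := by
  rw [Multiset.cons_swap z, ins_smul3 hF _ _ _ _ (by simp; omega), Multiset.cons_swap a]

lemma ins_D3 {J : Type} [Fintype J] (q : J → ℚ) (D : J → DivZ w) (hc : Fintype.card J + 3 = n)
    (x y z : DivR w) :
    INS μ ((NTsub μ).mkQ x ::ₘ (NTsub μ).mkQ y ::ₘ (NTsub μ).mkQ z ::ₘ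
        ms fun j => (q j : ℝ) • (NTsub μ).mkQ (toR (D j))) =
      (∏ i, (q i : ℝ)) * ofMulti μ (x ::ₘ y ::ₘ z ::ₘ ms fun j => toR (D j)) := by
  have h := ins_gen hF Finset.univ q D (x ::ₘ y ::ₘ z ::ₘ 0)
    (by simp [Finset.card_univ]; omega)
  simpa [Multiset.cons_add, ms_eq_mss] using h

lemma ins_D4 {J : Type} [Fintype J] (S : Finset J) (q : J → ℚ) (D : J → DivZ w)
    (hc : S.card + 4 = n) (x y z t : DivR w) :
    INS μ ((NTsub μ).mkQ x ::ₘ (NTsub μ).mkQ y ::ₘ (NTsub μ).mkQ z ::ₘ (NTsub μ).mkQ t ::ₘ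
        mss S fun j => (q j : ℝ) • (NTsub μ).mkQ (toR (D j))) =
      (∏ i ∈ S, (q i : ℝ)) * ofMulti μ (x ::ₘ y ::ₘ z ::ₘ t ::ₘ mss S fun j => toR (D j)) := by
  have h := ins_gen hF S q D (x ::ₘ y ::ₘ z ::ₘ t ::ₘ 0) (by simp; omega)
  simpa [Multiset.cons_add] using h

/-- type P classes from type P divisors -/
lemma tpi_typeP {H₀ : DivZ w} {J : Type} [Fintype J] [DecidableEq J] {q : J → ℚ} {D : J → DivZ w}
    (hc : Fintype.card J + 3 = n) (hq : ∀ j, 0 < q j)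
    (hV : ∀ D D' : DivZ w, VAmp H₀ D → VAmp H₀ D' → VAmp H₀ (D + D')) {δ : DivR w}
    (hT : TPI H₀ μ D δ) :
    TypeP (INS μ) (GNS μ H₀) (ms fun j => (q j : ℝ) • (NTsub μ).mkQ (toR (D j)))
      ((NTsub μ).mkQ δ) := by
  have hqR : ∀ j, (0 : ℝ) < (q j : ℝ) := fun j => by exact_mod_cast hq j
  have hQ : (0 : ℝ) < ∏ i, (q i : ℝ) := Finset.prod_pos fun i _ => hqR i
  have hcs : (ms fun j => (q j : ℝ) • (NTsub μ).mkQ (toR (D j))).card + 3 = n := by
    rw [card_ms]; exact hc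
  obtain ⟨hT1, hT2, j, hT3⟩ := hT
  refine ⟨?_, ?_, ?_⟩
  · rintro x ⟨A, hA, p, hp, rfl⟩ y ⟨A', hA', p', hp', rfl⟩
    rw [ins_smul3 hF _ _ _ _ hcs, ins_smul2 hF _ _ _ (by simp only [Multiset.card_cons]; omega), ins_D3 hF q D hc]
    have hpR : (0 : ℝ) < (p : ℝ) := by exact_mod_cast hp
    have hpR' : (0 : ℝ) < (p' : ℝ) := by exact_mod_cast hp'
    have := hT1 A A' hA hA'
    positivity
  · intro x y hxx
    obtain ⟨x, rfl⟩ := (NTsub μ).mkQ_surjective x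
    obtain ⟨y, rfl⟩ := (NTsub μ).mkQ_surjective y
    simp only [ins_D3 hF q D hc] at hxx ⊢
    have h := hT2 x y ((pos_iff_pos_of_mul_pos hxx).1 hQ)
    simp only at h
    have := mul_le_mul_of_nonneg_left h (sq_nonneg (∏ i, (q i : ℝ)))
    nlinarith [this]
  · refine ⟨(q j : ℝ) • (NTsub μ).mkQ (toR (D j)), mss (Finset.univ.erase j)
      (fun j => (q j : ℝ) • (NTsub μ).mkQ (toR (D j))), ms_erase _ j, ?_⟩
    rintro g ⟨G0, hG0, p, hp, rfl⟩ b ⟨B0, hB0, p', hp', rfl⟩ a ⟨A, hA, s, hs, rfl⟩ hlt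
    obtain ⟨ρ, k, l, hρ, hk, hl, e1, e2⟩ := rat_common hp hp'
    have hsR : (0 : ℝ) < (s : ℝ) := by exact_mod_cast hs
    have eg : (p : ℝ) • (NTsub μ).mkQ (toR G0) = ρ • (NTsub μ).mkQ (toR (k • G0)) := by
      rw [toR_nsmul, map_smul, smul_smul, e1]
    have eb : (p' : ℝ) • (NTsub μ).mkQ (toR B0) = ρ • (NTsub μ).mkQ (toR (l • B0)) := by
      rw [toR_nsmul, map_smul, smul_smul, e2]
    rw [eg, eb] at hlt ⊢
    have hce : (Finset.univ.erase j).card + 4 = n := by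
      rw [Finset.card_erase_of_mem (Finset.mem_univ j), Finset.card_univ]
      have : 0 < Fintype.card J := Fintype.card_pos_iff.2 ⟨j⟩
      omega
    have hce' : (mss (Finset.univ.erase j)
      (fun j => (q j : ℝ) • (NTsub μ).mkQ (toR (D j)))).card + 4 = n := by
      rw [card_mss]; exact hce
    have hQ' : (0 : ℝ) < ∏ i ∈ Finset.univ.erase j, (q i : ℝ) :=
      Finset.prod_pos fun i _ => hqR i
    have key : ∀ x y z t : DivR w,
        INS μ ((ρ • (NTsub μ).mkQ x) ::ₘ (ρ • (NTsub μ).mkQ y) ::ₘ (ρ • (NTsub μ).mkQ z) ::ₘ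
          ((s : ℝ) • (NTsub μ).mkQ t) ::ₘ mss (Finset.univ.erase j)
            fun j => (q j : ℝ) • (NTsub μ).mkQ (toR (D j))) =
          (ρ * ρ * ρ * s * ∏ i ∈ Finset.univ.erase j, (q i : ℝ)) *
            ofMulti μ (x ::ₘ y ::ₘ z ::ₘ t ::ₘ mss (Finset.univ.erase j) fun j => toR (D j)) := by
      intro x y z t
      rw [hF.h3 _ _ _ (by simp only [Multiset.card_cons]; omega),
        ins_smul2 hF _ _ _ (by simp only [Multiset.card_cons]; omega),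
        ins_smul3 hF _ _ _ _ (by simp only [Multiset.card_cons]; omega),
        ins_smul4 hF _ _ _ _ _ hce',
        ins_D4 hF _ q D hce]
      ring
    rw [key, key] at hlt
    have hlt' : 3 * ofMulti μ (toR (k • G0) ::ₘ toR (k • G0) ::ₘ toR (l • B0) ::ₘ toR A ::ₘ
        mss (Finset.univ.erase j) fun j => toR (D j)) <
      ofMulti μ (toR (k • G0) ::ₘ toR (k • G0) ::ₘ toR (k • G0) ::ₘ toR A ::ₘ
        mss (Finset.univ.erase j) fun j => toR (D j)) := by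
      have hpos : 0 < (ρ * ρ * ρ * s * ∏ i ∈ Finset.univ.erase j, (q i : ℝ)) := by positivity
      refine lt_of_mul_lt_mul_left ?_ hpos.le
      linarith
    have h := hT3 (k • G0) (l • B0) A (vamp_nsmul hV hG0 hk) (vamp_nsmul hV hB0 hl) hA hlt'
    have e3 : ρ • (NTsub μ).mkQ (toR (k • G0)) - ρ • (NTsub μ).mkQ (toR (l • B0)) =
        ρ • (NTsub μ).mkQ (toR (k • G0) - toR (l • B0)) := by
      rw [map_sub, smul_sub]
    rw [e3, ins_smul2 hF _ _ _ (by simp [card_ms]; omega), ins_smul3 hF _ _ _ _ hcs,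
      ins_D3 hF q D hc]
    positivity

end

theorem ges (hREP : T_REP) (hSCL : T_SCL) (hIN : T_IN) (hSX : T_SX) (hXQ : T_XQ) : T_GES := by
  intro K _ _ N n w i₀ H₀ μ hw hH hμ h hcard hh g hg b hb hlt
  obtain ⟨hI1, -, hI3, -⟩ := hIN K N n w μ hμ
  have hF : InsF μ := ⟨hI1, hI3, fun ι S q x t h => hSCL K N n w μ hμ ι S q x t h⟩
  obtain ⟨hV, -⟩ := hXQ K N n w hw i₀ H₀ hH
  obtain ⟨D, q, hDq, hhe⟩ := hREP K N n w H₀ μ h hh
  have hc : Fintype.card (Fin h.card) + 3 = n := by simpa using hcard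
  obtain ⟨G0, hG0, p, hp, rfl⟩ := hg
  obtain ⟨B0, hB0, p', hp', rfl⟩ := hb
  obtain ⟨ρ, k, l, hρ, hk, hl, e1, e2⟩ := rat_common hp hp'
  have eg : (p : ℝ) • (NTsub μ).mkQ (toR G0) = ρ • (NTsub μ).mkQ (toR (k • G0)) := by
    rw [toR_nsmul, map_smul, smul_smul, e1]
  have eb : (p' : ℝ) • (NTsub μ).mkQ (toR B0) = ρ • (NTsub μ).mkQ (toR (l • B0)) := by
    rw [toR_nsmul, map_smul, smul_smul, e2]
  rw [eg, eb] at hlt ⊢
  have hqR : ∀ j, (0 : ℝ) < (q j : ℝ) := fun j => by exact_mod_cast (hDq j).2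
  have hQ : (0 : ℝ) < ∏ i, (q i : ℝ) := Finset.prod_pos fun i _ => hqR i
  have hD3 := ins_D3 hF q D hc
  rw [← hhe] at hD3
  have key : ∀ x y z : DivR w,
      INS μ ((ρ • (NTsub μ).mkQ x) ::ₘ (ρ • (NTsub μ).mkQ y) ::ₘ (ρ • (NTsub μ).mkQ z) ::ₘ h) =
        (ρ * ρ * ρ * ∏ i, (q i : ℝ)) *
          ofMulti μ (x ::ₘ y ::ₘ z ::ₘ ms fun j => toR (D j)) := by
    intro x y z
    rw [hF.h3 _ _ _ (by simp; omega), ins_smul2 hF _ _ _ (by simp; omega),
      ins_smul3 hF _ _ _ _ (by omega), hD3]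
    ring
  rw [key, key] at hlt
  have hpos : 0 < (ρ * ρ * ρ * ∏ i, (q i : ℝ)) := by positivity
  have hlt' : 3 * ofMulti μ (toR (k • G0) ::ₘ toR (k • G0) ::ₘ toR (l • B0) ::ₘ
        ms fun j => toR (D j)) <
      ofMulti μ (toR (k • G0) ::ₘ toR (k • G0) ::ₘ toR (k • G0) ::ₘ ms fun j => toR (D j)) := by
    refine lt_of_mul_lt_mul_left ?_ hpos.le
    linarith
  obtain ⟨r, c, δ, hc0, hdec, htype⟩ := hSX K N n w i₀ H₀ μ hw hH hμ (Fin h.card) D hc
    (fun j => (hDq j).1) (k • G0) (l • B0) (vamp_nsmul hV hG0 hk) (vamp_nsmul hV hB0 hl) hlt'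
  refine ⟨r, fun i => ρ * c i, fun i => (NTsub μ).mkQ (δ i), fun i => mul_nonneg hρ.le (hc0 i),
    ?_, ?_⟩
  · intro x y
    obtain ⟨x, rfl⟩ := (NTsub μ).mkQ_surjective x
    obtain ⟨y, rfl⟩ := (NTsub μ).mkQ_surjective y
    have e3 : ρ • (NTsub μ).mkQ (toR (k • G0)) - ρ • (NTsub μ).mkQ (toR (l • B0)) =
        ρ • (NTsub μ).mkQ (toR (k • G0) - toR (l • B0)) := by
      rw [map_sub, smul_sub]
    rw [e3, hF.h3 _ _ _ (by simp; omega), hD3, hdec, Finset.mul_sum, Finset.mul_sum]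
    refine Finset.sum_congr rfl fun i _ => ?_
    rw [hD3]
    ring
  · intro i
    rcases htype i with ⟨v, hv⟩ | hT
    · left; exact ⟨v, congrArg _ hv⟩
    · right
      rw [hhe]
      exact @tpi_typeP K _ _ N n w μ hF H₀ (Fin h.card) _
        (fun a b => Classical.propDecidable (a = b)) q D hc (fun j => (hDq j).2) hV (δ i) hT

end Pool.Agent.H29.SCX
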